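import Mathlib
import Pool.Agent.H751Z.Fas

set_option autoImplicit false

namespace Pool.Agent.Results.MP_8e7993_co.ANoThreePath

/-- For all `k` and `g` there is a finite nonempty loopless digraph with all out-degrees at least
`k` and no closed directed walk of length at most `g` in which no inclusion-minimal feedback arc
set contains three consecutive arcs. -/
theorem result (k g : ℕ) :
    ∃ (V : Type) (_ : Finite V) (_ : Nonempty V) (D : Digraph V),
      (∀ v, ¬ D.Adj v v) ∧
      (∀ v : V, k ≤ Nat.card {w : V // D.Adj v w}) ∧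
      (∀ n : ℕ, 1 ≤ n → n ≤ g → ∀ p : ℕ → V, (∀ i < n, D.Adj (p i) (p (i + 1))) → p n ≠ p 0) ∧
      ∀ F : Set (V × V),
        Minimal (fun S : Set (V × V) =>
          (∀ e ∈ S, D.Adj e.1 e.2) ∧
          ∀ v : V, ¬ Relation.TransGen (fun a b => D.Adj a b ∧ (a, b) ∉ S) v v) F →
        ¬ ∃ a b c d : V, (a, b) ∈ F ∧ (b, c) ∈ F ∧ (c, d) ∈ F :=
  Pool.Agent.H751Z.Fas.main k g

end Pool.Agent.Results.MP_8e7993_co.ANoThreePath
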